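import Pool.Agent.H35.Lir.TypedCor

/-!
Sufficient conditions for `lir D ≤ 2`.

(1) `D` has a good typing: a partition into classes `C₀`, `C₁` and a set `U` of free vertices
inducing an acyclic digraph, without the exceptional pattern.
(2) The ascending vertices of `D` induce a bipartite skeleton and the others an acyclic digraph.
(3) `D` is acyclic and every vertex of positive indegree has outdegree at most three.
(4) `D` is acyclic, for every arc `uw` with `d⁺(w) = 2 d⁺(u)` which is critical the indegree does
not decrease from `u` to `w`, and only vertices of indegree at most one are exceptional.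
The same holds for the reversed digraph.
-/

namespace Pool.Agent.Archive.MP_f514d4_co.Acyclic

open Pool.Agent.H35.Lir

/-- the union of the four conditions -/
def Cond {V : Type} (D : V → V → Prop) : Prop :=
  (∃ t : V → Option (Fin 2), GoodTyping D t) ∨
  ((∃ ρ : V → Fin 2, ∀ x y, D x y → Ascending D x → Ascending D y → ρ x ≠ ρ y) ∧
    ∀ x, ¬ Relation.TransGen (fun a b => D a b ∧ ¬ Ascending D a ∧ ¬ Ascending D b) x x) ∨
  ((∀ x, ¬ Relation.TransGen D x x) ∧ ∀ x, inDeg D x ≠ 0 → outDeg D x ≤ 3) ∨
  ((∀ x, ¬ Relation.TransGen D x x) ∧ (∀ u w, CriticalPair D u w → inDeg D u ≤ inDeg D w) ∧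
    ∀ u, 2 ≤ inDeg D u → ¬ Exceptional D u)

theorem cond_two {V : Type} [Fintype V] (D : V → V → Prop) (h : Cond D) :
    ∃ c : V → V → Fin 2, IsWLIColouring D c := by
  rcases h with ⟨t, ht⟩ | ⟨⟨ρ, hρ⟩, hac⟩ | ⟨hac, h3⟩ | ⟨hac, h1, h2⟩
  · exact exists_typed D t ht
  · exact exists_typed D _ (goodTyping_of_ascending D ρ hρ hac)
  · exact two_of_outDeg_three D hac h3
  · exact acyclic_two hac h1 h2

theorem reverse_colouring {V : Type} (D : V → V → Prop) {k : ℕ} (c : V → V → Fin k)
    (h : IsWLIColouring (fun x y => D y x) c) : IsWLIColouring D fun x y => c y x := by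
  intro i x y hxy heq
  refine h i y x hxy ?_
  have h1 := congrArg Prod.fst heq
  have h2 := congrArg Prod.snd heq
  exact Prod.ext h2.symm h1.symm

theorem result {V : Type} [Finite V] (D : V → V → Prop)
    (h : Cond D ∨ Cond fun x y => D y x) :
    (∃ c : V → V → Fin 2, IsWLIColouring D c) ∧ lir D ≤ 2 := by
  have := Fintype.ofFinite V
  have key : ∃ c : V → V → Fin 2, IsWLIColouring D c := by
    rcases h with h | h
    · exact cond_two D h
    · obtain ⟨c, hc⟩ := cond_two (fun x y => D y x) h
      exact ⟨fun x y => c y x, reverse_colouring D c hc⟩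
  exact ⟨key, Nat.sInf_le key⟩

end Pool.Agent.Archive.MP_f514d4_co.Acyclic
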