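import Pool.Agent.H35.Lir.Asc3

/-!
Let `L` be a set of vertices of the finite loopless digraph `D` with a proper colouring of `D[L]` by
pairs `(σ, τ)` of distinct elements of `Fin k` (`k(k-1)` pairs), and let `0 ≤ t ≤ 1`.  If
`t * (d⁺(y) - d⁺(x)) + (1 - t) * (d⁻(x) - d⁻(y)) < k - 1` for every arc `xy` with both ends outside
`L`, except when `x` is a source or `y` is a sink, then `k` colours suffice.

Hence two colours suffice if the strongly ascending vertices of `D` or of the reversed digraph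
induce a bipartite skeleton, in particular if every vertex which is not a source has outdegree at
most `3` and the strongly ascending vertices induce no closed directed walk of odd length, e.g. if
all outdegrees are at most `2`.
-/

namespace Pool.Agent.Archive.MP_f514d4_co.WeightedImbalance

open Pool.Agent.H35.Lir

/-- conditions under which two colours suffice -/
def Cond {V : Type} (D : V → V → Prop) : Prop :=
  (∀ x, outDeg D x ≤ 2) ∨
  ((∀ x, inDeg D x ≠ 0 → outDeg D x ≤ 3) ∧
    ∀ x n, Odd n → ¬ Walk (fun a b => D a b ∧ StrAsc D a ∧ StrAsc D b) n x x) ∨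
  ∃ ρ : V → Fin 2, ∀ x y, D x y → StrAsc D x → StrAsc D y → ρ x ≠ ρ y

theorem cond_two {V : Type} [Fintype V] (D : V → V → Prop) (hD : ∀ x, ¬ D x x) (h : Cond D) :
    ∃ c : V → V → Fin 2, IsWLIColouring D c := by
  rcases h with h | ⟨h1, h2⟩ | ⟨ρ, h⟩
  · exact exists_two_of_outDeg D hD h
  · exact exists_two_of_outDeg_three D hD h1 h2
  · exact exists_two_of_strAsc D hD ρ h

theorem result {V : Type} [Finite V] (D : V → V → Prop) (hD : ∀ x, ¬ D x x) :
    (∀ (k : ℕ) (t : ℝ) (L : Set V) (σ τ : V → Fin k), 1 ≤ k → 0 ≤ t → t ≤ 1 →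
      (∀ x ∈ L, σ x ≠ τ x) →
      (∀ x ∈ L, ∀ y ∈ L, D x y → (σ x, τ x) ≠ (σ y, τ y)) →
      (∀ x y, x ∉ L → y ∉ L → D x y → inDeg D x ≠ 0 → outDeg D y ≠ 0 →
        t * ((outDeg D y : ℝ) - outDeg D x) + (1 - t) * ((inDeg D x : ℝ) - inDeg D y) <
          (k : ℝ) - 1) →
      (∃ c : V → V → Fin k, IsWLIColouring D c) ∧ lir D ≤ k) ∧
    (Cond D ∨ Cond (fun x y => D y x) →
      (∃ c : V → V → Fin 2, IsWLIColouring D c) ∧ lir D ≤ 2) := by
  have := Fintype.ofFinite V
  refine ⟨?_, fun h => ?_⟩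
  · intro k t L σ τ hk ht0 ht1 hστ hL h
    have := exists_colouring_frame D hD hk ht0 ht1 L σ τ hστ hL h
    exact ⟨this, Nat.sInf_le this⟩
  · have key : ∃ c : V → V → Fin 2, IsWLIColouring D c := by
      rcases h with h | h
      · exact cond_two D hD h
      · obtain ⟨c, hc⟩ := cond_two (fun x y => D y x) (fun x => hD x) h
        exact ⟨fun x y => c y x, reverse_wli D c hc⟩
    exact ⟨key, Nat.sInf_le key⟩

end Pool.Agent.Archive.MP_f514d4_co.WeightedImbalance
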